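import Mathlib
import Pool.Agent.Q18.P.GL2

/-!
# Weight-two eigenvalues of `GL_2` over any number field: bounds at all primes from one-sided means; exact bounds

Let `K` be a number field, `𝔫` a nonzero ideal, `S` the set of primes dividing `𝔫`, and `θ` a nontrivial character of
the Hecke algebra `𝕋_1(𝔫)` of the problem; `q = N℘`.  Put `t(℘) = θ(T_℘)`, `s(℘) = θ(S_℘)` (a root of unity), and

  `λ₄(℘) = x⁴ - 3 s(℘) x² + s(℘)²`,   `x = t(℘) / √q`

(the normalised eigenvalue on the fourth symmetric power: `λ₄ = α⁴ + α³β + α²β² + αβ³ + β⁴` if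
`t(℘) = √q (α + β)`, `αβ = s(℘)`).  The conjecture says `|t(℘)| ≤ 2 √q`; the best known bound over a general `K` is
`|t(℘)| ≤ √q (q^{7/64} + q^{-7/64})` (Kim and Sarnak, Blomer and Brumley).

1.  For `c > 0` put `T_c(y) = log ∏_{p ≤ y} (1 - p^{-c})⁻¹ - ∑_{N℘ ≤ y, ℘ ∤ 𝔫} |λ₄(℘)|² N℘^{-c}` (`p` runs through the
    RATIONAL primes).  If for some `0 < δ < 1`, `ρ`, `B` there are arbitrarily large `Y` with
    `∫_{Y^{1-δ}}^Y max(T_c(y) - ρ log log y, 0) dy / y ≤ B log Y` - a bound from one side, in the logarithmic mean, on one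
    arbitrarily sparse sequence of windows -, then, for ALL primes `℘ ∤ 𝔫`,
    `|t(℘)| ≤ √q (q^{c/8} + q^{-c/8})`, with `<` if `ρ < 1`.
    This is better than the known bound for `c < 7/8`; for `c` near `1/2` the exponent is near `1/16`.
2.  Under the same hypothesis, if `t(℘)` is a rational integer (for all `℘` with trivial character `s = 1` this is the case
    expected to correspond to elliptic curves over `K`), then `|t(℘)| ≤ 2 √q`, the exact bound of the conjecture, for every
    `℘ ∤ 𝔫` such that there is no integer `m` with `2 √q < m ≤ √q (q^{c/8} + q^{-c/8})`.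
3.  Without the hypothesis on the means, if `t(℘)` is a rational integer, then the exact bound `|t(℘)| ≤ 2 √q` holds at all
    primes `℘ ∤ 𝔫` of norm `2, 3, 4, 5, 7, 8, 9, 11, 13, 16, 17, 25` and `31`.  (In 3. the bound with the exponent `7/64` of
    Blomer and Brumley is used, as a hypothesis.)

For totally real `K` and for CM fields the conjecture is known by geometry or potential automorphy (Blasius; Allen,
Calegari, Caraiani, Gee, Helm, Le Hung, Newton, Scholze, Taylor, Thorne); for all other `K` it is open.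

The structure `Character` lists what is used of `θ`.  A nontrivial `θ` comes from an Eisenstein class with a pair of
algebraic Hecke characters of weight one (then `|t(℘)| ≤ 2 √q`), or from a cuspidal automorphic representation `π` of
`GL_2` over `K`; if `π` is induced from a Hecke character of a quadratic extension, again `|t(℘)| ≤ 2 √q`.  Otherwise `π`
is neither tetrahedral nor octahedral, as its archimedean components are not those of an Artin representation, and by Kim
and Shahidi `Sym⁴ π` is a cuspidal representation of `GL_5` over `K`, whose Satake parameters are `α^{4-i} β^i`.  What is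
used of it is `IsobaricRepK` with `n = 5`, `r = 1`, all known for unitary cuspidal representations (Jacquet,
Piatetski-Shapiro, Shalika, Moeglin, Waldspurger): unitarity of the local components, absolute convergence of the
Rankin-Selberg series for `Re s > 1`, and `L(s, Sym⁴ π × Sym⁴ π~)` is entire except for a simple pole at `s = 1`, with
Euler factors of degree `≤ 25` at `S`; its completion times `s (s - 1)` is entire.

The proof of 1.: `F(s) = L^S(s, Sym⁴ π × Sym⁴ π~) / ζ(s)`, without the Euler factor at `℘`, has no real poles in `s > 0`,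
since `ζ` has no real zeros there.  The prime powers contribute to the sums with a sign, and a one-sided bound of the
logarithmic means on one sequence of windows excludes all zeros and poles to the right of `c`, and bounds the order at
`c` by `ρ`; but the poles `q^{±8 ϑ}` of the removed factor are real zeros of `F`.
-/

set_option autoImplicit false

namespace Pool.Agent.Results.MP_4819b8_nt.BoundsFromMeans

open NumberField IsDedekindDomain Pool.Agent.Q12.WN Pool.Agent.Q18.P
open Pool.Agent.TH861.GL3 (PL qq two_le_qq)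

variable {K : Type*} [Field K] [NumberField K] {S : Finset (HeightOneSpectrum (𝓞 K))}

/-- What is used of a nontrivial character `θ` of `𝕋_1(𝔫)`, `S` the set of primes dividing `𝔫`, `t v = θ(T_v)`,
`s v = θ(S_v)`: either `θ` comes from Hecke characters (Eisenstein and dihedral case), and `|t v| ≤ 2 √q`, or the fourth
symmetric power of the associated automorphic representation is cuspidal. -/
structure Character (S : Finset (HeightOneSpectrum (𝓞 K))) (t s : PL S → ℂ) : Prop where
  unit : ∀ v, ‖s v‖ = 1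
  cases : (∀ v, ‖t v‖ ≤ 2 * Real.sqrt (qq v.1)) ∨
    ∃ α β : PL S → ℂ, (∀ v, t v = (Real.sqrt (qq v.1) : ℂ) * (α v + β v)) ∧ (∀ v, α v * β v = s v) ∧
      ∃ (b : HeightOneSpectrum (𝓞 K) → Fin (5 ^ 2) → ℂ) (κ : Fin (5 ^ 2 * Module.finrank ℚ K) → ℂ),
        IsobaricRepK S 1 (sym4K α β) b κ

/-- `λ₄(℘)` -/
noncomputable def lam4 (t s : PL S → ℂ) (v : PL S) : ℂ :=
  (t v / (Real.sqrt (qq v.1) : ℂ)) ^ 4 - 3 * s v * (t v / (Real.sqrt (qq v.1) : ℂ)) ^ 2 + s v ^ 2

open scoped Classical in
/-- `T_c(y) = log ∏_{p ≤ y} (1 - p^{-c})⁻¹ - ∑_{N℘ ≤ y} |λ₄(℘)|² N℘^{-c}` -/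
noncomputable def T (t s : PL S → ℂ) (c y : ℝ) : ℝ :=
  (-∑' p : Nat.Primes, if ((p : ℕ) : ℝ) ≤ y then Real.log (1 - ((p : ℕ) : ℝ) ^ (-c)) else 0) -
    ∑' v : PL S, if (qq v.1 : ℝ) ≤ y then ‖lam4 t s v‖ ^ 2 * (qq v.1 : ℝ) ^ (-c) else 0

/-- the bound with the exponent `ϑ` -/
noncomputable def bound (q ϑ : ℝ) : ℝ := Real.sqrt q * (q ^ ϑ + q ^ (-ϑ))

theorem sqrt_pos (v : PL S) : 0 < Real.sqrt (qq v.1) := by
  have := two_le_qq v.1
  exact Real.sqrt_pos.2 (by exact_mod_cast (by omega : 0 < qq v.1))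

theorem one_lt (v : PL S) : (1 : ℝ) < (qq v.1 : ℝ) := by
  have := two_le_qq v.1
  exact_mod_cast (by omega : 1 < qq v.1)

/-- integers in a gap -/
theorem gap {x B : ℝ} (a : ℤ) (hx : |(a : ℝ)| ≤ B) (h : ∀ m : ℤ, 2 * Real.sqrt x < m → B < m) :
    |(a : ℝ)| ≤ 2 * Real.sqrt x := by
  by_contra h1
  push Not at h1
  have h2 := h |a| (by push_cast; exact h1)
  push_cast at h2
  linarith

/-- the numerical criterion for the exponent `7/64` -/
theorem num {q : ℕ} (hq : 2 ≤ q) {M : ℕ} {X : ℝ} (hX : 1 ≤ X) (h1 : (q : ℝ) ^ 7 ≤ X ^ 64)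
    (h2 : (q : ℝ) * (X + X⁻¹) ^ 2 < (M : ℝ) ^ 2)
    (h4 : ((M : ℝ) - 1) ^ 2 ≤ 4 * q) (hM : 1 ≤ M) {a : ℤ} (ha : |(a : ℝ)| ≤ bound q (7 / 64)) :
    |(a : ℝ)| ≤ 2 * Real.sqrt q := by
  have hq0 : (0 : ℝ) < q := by exact_mod_cast (by omega : 0 < q)
  have hq1 : (1 : ℝ) ≤ q := by exact_mod_cast (by omega : 1 ≤ q)
  have hx : (q : ℝ) ^ (7 / 64 : ℝ) ≤ X := by
    have h5 : ((q : ℝ) ^ (7 / 64 : ℝ)) ^ 64 ≤ X ^ 64 := by
      rw [← Real.rpow_natCast ((q : ℝ) ^ (7 / 64 : ℝ)) 64, ← Real.rpow_mul hq0.le]
      norm_num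
      exact_mod_cast h1
    exact le_of_pow_le_pow_left₀ (by norm_num) (by linarith) h5
  have hb : bound q (7 / 64) ≤ Real.sqrt q * (X + X⁻¹) := by
    unfold bound
    rw [Real.rpow_neg hq0.le]
    exact mul_le_mul_of_nonneg_left (cosh_mono (Real.one_le_rpow hq1 (by norm_num)) hx) (Real.sqrt_nonneg _)
  have h6 : |(a : ℝ)| < M := by
    refine lt_of_pow_lt_pow_left₀ 2 (Nat.cast_nonneg _) (lt_of_le_of_lt ?_ h2)
    calc |(a : ℝ)| ^ 2 ≤ (Real.sqrt q * (X + X⁻¹)) ^ 2 := by
          have := ha.trans hb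
          have h0 := abs_nonneg (a : ℝ)
          gcongr
      _ = (q : ℝ) * (X + X⁻¹) ^ 2 := by rw [mul_pow, Real.sq_sqrt hq0.le]
  have h7 : |a| ≤ (M : ℤ) - 1 := by
    have : |a| < (M : ℤ) := by
      have h8 : ((|a| : ℤ) : ℝ) < ((M : ℤ) : ℝ) := by
        push_cast
        exact h6
      exact_mod_cast h8
    omega
  have h8 : |(a : ℝ)| ≤ (M : ℝ) - 1 := by
    have : ((|a| : ℤ) : ℝ) ≤ (((M : ℤ) - 1 : ℤ) : ℝ) := by exact_mod_cast h7
    push_cast at this
    exact this
  refine h8.trans ?_
  have hM' : (0 : ℝ) ≤ (M : ℝ) - 1 := by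
    have : (1 : ℝ) ≤ M := by exact_mod_cast hM
    linarith
  refine le_of_pow_le_pow_left₀ two_ne_zero (by positivity) (h4.trans (le_of_eq ?_))
  rw [mul_pow, Real.sq_sqrt hq0.le]
  norm_num

/-- **Weight-two eigenvalues over any number field.** -/
theorem result {t s : PL S → ℂ} (h : Character S t s) :
    -- 1., 2.: the one-sided bound in the mean, on one sequence of windows
    (∀ c δ ρ B : ℝ, 0 < c → 0 < δ → δ < 1 →
      (∀ Y₀ : ℝ, ∃ Y : ℝ, Y₀ ≤ Y ∧
        ∫ y in (Y ^ (1 - δ))..Y, max (T t s c y - ρ * Real.log (Real.log y)) 0 / y ≤ B * Real.log Y) →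
      (∀ v, ‖t v‖ ≤ bound (qq v.1) (c / 8)) ∧ (ρ < 1 → ∀ v, ‖t v‖ < bound (qq v.1) (c / 8)) ∧
      ∀ (v : PL S) (a : ℤ), t v = a → (∀ m : ℤ, 2 * Real.sqrt (qq v.1) < m → bound (qq v.1) (c / 8) < m) →
        ‖t v‖ ≤ 2 * Real.sqrt (qq v.1)) ∧
    -- 3.: primes of small norm
    ((∀ v, ‖t v‖ ≤ bound (qq v.1) (7 / 64)) → ∀ (v : PL S) (a : ℤ), t v = a →
      qq v.1 ∈ ({2, 3, 4, 5, 7, 8, 9, 11, 13, 16, 17, 25, 31} : Finset ℕ) → ‖t v‖ ≤ 2 * Real.sqrt (qq v.1)) := by
  refine ⟨fun c δ ρ B hc hδ hδ1 hY => ?_, fun hKS v a ha hq => ?_⟩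
  · have key : (∀ v, ‖t v‖ ≤ bound (qq v.1) (c / 8)) ∧ (ρ < 1 → ∀ v, ‖t v‖ < bound (qq v.1) (c / 8)) := by
      rcases h.cases with h1 | ⟨α, β, h1, h2, b, κ, h3⟩
      · have h4 : ∀ v, ‖t v‖ < bound (qq v.1) (c / 8) := fun v => by
          refine (h1 v).trans_lt ?_
          unfold bound
          have h5 := two_lt (one_lt v) (θ := c / 8) (by linarith)
          have h6 := sqrt_pos v
          nlinarith
        exact ⟨fun v => (h4 v).le, fun _ => h4⟩
      · have hx : ∀ v, t v / (Real.sqrt (qq v.1) : ℂ) = α v + β v := fun v => by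
          rw [h1 v]
          have : (Real.sqrt (qq v.1) : ℂ) ≠ 0 := by exact_mod_cast (sqrt_pos v).ne'
          field_simp
        have hl : ∀ v, lam4 t s v = ∑ i, sym4K α β v i := fun v => by
          unfold lam4
          rw [sum_sym4K, hx v, h2 v]
        have hT : ∀ y, T t s c y = diffK (sym4K α β) (fun v => (∑ j : Fin 1, (1 : ℂ)).re) (∑ j : Fin 1, 1) c y := by
          intro y
          unfold T diffK zetaLog
          simp only [hl, Finset.sum_const, Finset.card_univ, Fintype.card_fin, one_smul, Complex.one_re, one_mul,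
            Nat.cast_one]
        obtain ⟨k1, -, -, k4, -⟩ := nf_crit (S := S) h3 hc (ι := Fin 1) (χ := fun _ _ => 1) (e := fun _ => 1)
          (j₀ := 0) (fun _ => rfl) (fun j => Or.inl ⟨fun _ => rfl, rfl⟩)
          (fun v k => ⟨1, zero_le_one, by simp⟩) (ρ := ρ) (B := B) hδ hδ1 (fun Y₀ => by
            obtain ⟨Y, h4, h5⟩ := hY Y₀
            refine ⟨Y, h4, ?_⟩
            simpa only [hT] using h5)
        have hprod : ∀ v, ‖α v * β v‖ = 1 := fun v => by rw [h2 v]; exact h.unit v
        have hn : ∀ v, ‖t v‖ = Real.sqrt (qq v.1) * ‖α v + β v‖ := fun v => by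
          rw [h1 v, norm_mul, Complex.norm_real, Real.norm_of_nonneg (Real.sqrt_nonneg _)]
        refine ⟨fun v => ?_, fun hρ v => ?_⟩
        · rw [hn v]
          unfold bound
          refine mul_le_mul_of_nonneg_left (sum_norm_le (one_lt v) (hprod v) ?_) (Real.sqrt_nonneg _)
          have := k1 v 0
          rw [logb_sym4K] at this
          linarith
        · rw [hn v]
          unfold bound
          refine mul_lt_mul_of_pos_left (sum_norm_lt (one_lt v) (hprod v) ?_) (sqrt_pos v)
          have := (k4 hρ).1 v 0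
          rw [logb_sym4K] at this
          linarith
    refine ⟨key.1, key.2, fun v a ha hm => ?_⟩
    have h1 := key.1 v
    rw [ha, Complex.norm_intCast] at h1 ⊢
    exact gap a h1 hm
  · have h1 := hKS v
    rw [ha, Complex.norm_intCast] at h1 ⊢
    simp only [Finset.mem_insert, Finset.mem_singleton] at hq
    have h0 := two_le_qq v.1
    rcases hq with h | h | h | h | h | h | h | h | h | h | h | h | h <;> rw [h] at h1 h0 ⊢
    · exact num h0 (M := 3) (X := 11 / 10) (by norm_num) (by norm_num) (by norm_num) (by norm_num)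
        (by norm_num) h1
    · exact num h0 (M := 4) (X := 6 / 5) (by norm_num) (by norm_num) (by norm_num) (by norm_num)
        (by norm_num) h1
    · exact num h0 (M := 5) (X := 6 / 5) (by norm_num) (by norm_num) (by norm_num) (by norm_num)
        (by norm_num) h1
    · exact num h0 (M := 5) (X := 6 / 5) (by norm_num) (by norm_num) (by norm_num) (by norm_num)
        (by norm_num) h1
    · exact num h0 (M := 6) (X := 13 / 10) (by norm_num) (by norm_num) (by norm_num) (by norm_num)
        (by norm_num) h1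
    · exact num h0 (M := 6) (X := 13 / 10) (by norm_num) (by norm_num) (by norm_num) (by norm_num)
        (by norm_num) h1
    · exact num h0 (M := 7) (X := 13 / 10) (by norm_num) (by norm_num) (by norm_num) (by norm_num)
        (by norm_num) h1
    · exact num h0 (M := 7) (X := 13 / 10) (by norm_num) (by norm_num) (by norm_num) (by norm_num)
        (by norm_num) h1
    · exact num h0 (M := 8) (X := 7 / 5) (by norm_num) (by norm_num) (by norm_num) (by norm_num)
        (by norm_num) h1
    · exact num h0 (M := 9) (X := 7 / 5) (by norm_num) (by norm_num) (by norm_num) (by norm_num)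
        (by norm_num) h1
    · exact num h0 (M := 9) (X := 7 / 5) (by norm_num) (by norm_num) (by norm_num) (by norm_num)
        (by norm_num) h1
    · exact num h0 (M := 11) (X := 3 / 2) (by norm_num) (by norm_num) (by norm_num) (by norm_num)
        (by norm_num) h1
    · exact num h0 (M := 12) (X := 73 / 50) (by norm_num) (by norm_num) (by norm_num) (by norm_num)
        (by norm_num) h1

end Pool.Agent.Results.MP_4819b8_nt.BoundsFromMeans
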