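import Mathlib
import Pool.Agent.Q18.P.GL2
import Pool.Agent.Q222.RK.NF

/-!
# Weight-two eigenvalues of `GL_2` over any number field: exact bounds from Mittag-Leffler means over prime powers

Let `K` be a number field, `𝔫` a nonzero ideal, `S` the set of primes dividing `𝔫`, and `θ` a nontrivial character of
the Hecke algebra `𝕋_1(𝔫)` of the problem; `q = N℘`, `t(℘) = θ(T_℘)`, `s(℘) = θ(S_℘)` (a root of unity).  Write
`t(℘) = √q (α + β)`, `s(℘) = α β`, `A_℘ = diag(α, β)`.  The trace of `Sym⁴` at the `k`-th power of the Frobenius class is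

  `tr Sym⁴(A_℘^k) = p⁴ - 3 s(℘)^k p² + s(℘)^{2k}`,   `p = p_k(t(℘) / √q, s(℘))`,

where `p_0 = 2`, `p_1(x, s) = x`, `p_{k+2} = x p_{k+1} - s p_k`.  For `0 ≤ c < 1`, `N ≥ 0` and `T > 0` put

  `M_{c,N}(T) = ∑_{℘ ∤ 𝔫} ∑_{1 ≤ k ≤ N} |tr Sym⁴(A_℘^k)|² / (k q^{kc} Γ(1 + k log q / T))
               - ∑_p ∑_{1 ≤ k ≤ N} 1 / (k p^{kc} Γ(1 + k log p / T))`,

`p` runs through the rational primes; both sums converge absolutely.  Write `B(q, ϑ) = √q (q^ϑ + q^{-ϑ})`, so that the
conjecture is `|t(℘)| ≤ B(q, 0)`; the best known bound over a general `K` is `B(q, 7/64)` (Kim and Sarnak, Blomer and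
Brumley).

1.  Let `y ≥ 0`, `(N + 1) (c + y) ≥ 1` and suppose that `M_{c,N}(T) ≥ - exp(exp(y T))` for arbitrarily large `T`.  Then
    `|t(℘)| ≤ B(q, (c + y) / 8)` for ALL `℘ ∤ 𝔫`, and the exact bound `|t(℘)| ≤ 2 √q` holds at all `℘ ∤ 𝔫` such that
    `t(℘)` is a rational integer and `(c + y) √q log q ≤ 3`.
2.  Conversely, one prime `℘ ∤ 𝔫` with `|t(℘)| ≥ B(q, x / 8)`, `x > c`, `(N + 1) x > 1`, forces `M_{c,N}(T) <
    - exp(exp(y T))` for ALL large `T`, for every `y < x - c`.
3.  If for infinitely many `N` we have `M_{0,N}(T) ≥ - exp(exp(T / (N + 1)))` for arbitrarily large `T` (one sequence of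
    `T` for each of these `N`), then `|t(℘)| ≤ 2 √q` for all `℘ ∤ 𝔫`: the conjecture for `θ`.

`N = 1`, `c + y = 1/2`: sums over primes, exponent `1/16`, exact bounds for integral eigenvalues at all `q ≤ 8`.  In
general, prime powers with `k ≤ N` and `c = 0`, `y = 1 / (N + 1)` give the exponent `1 / (8 (N + 1))`, and exact bounds for
integral eigenvalues at all `℘` with `√q log q ≤ 3 (N + 1)`.

For totally real `K` and for CM fields the conjecture is known; for all other `K` it is open.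

The structure `Character` (the same as in `BoundsFromMeans` by helper 18) lists what is used of `θ`.  A nontrivial `θ`
comes from an Eisenstein class with a pair of algebraic Hecke characters of weight one (then `|t(℘)| ≤ 2 √q`), or from a
cuspidal automorphic representation `π` of `GL_2` over `K`; if `π` is induced from a Hecke character of a quadratic
extension, again `|t(℘)| ≤ 2 √q`.  Otherwise `π` is neither tetrahedral nor octahedral, as its archimedean components are
not those of an Artin representation, and by Kim and Shahidi `Sym⁴ π` is a cuspidal representation of `GL_5` over `K`,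
whose Satake parameters are `α^{4-i} β^i`.  What is used of it is `IsobaricRepK` with `n = 5`, `r = 1`, all known for
unitary cuspidal representations: unitarity of the local components, absolute convergence of the Rankin-Selberg series
for `Re s > 1`, and `L(s, Sym⁴ π × Sym⁴ π~)` is entire except for a simple pole at `s = 1`, with Euler factors of degree
`≤ 25` at `S`; its completion times `s (s - 1)` is entire.

The proof: `F(s) = L^S(s, Sym⁴ π × Sym⁴ π~) / ζ(s)` has no poles at real `s > 0`, and a Mittag-Leffler mean of the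
coefficients of `log F` over prime powers is of size `- exp(exp((x - c) T))`, `x` the largest real zero; removing the Euler
factor at `℘` creates a real zero at `8 |log_q |α||`.
-/

set_option autoImplicit false

namespace Pool.Agent.Results.MP_4819b8_nt.PrimePowerMeans

open NumberField IsDedekindDomain Filter Pool.Agent.Q12.WN
open Pool.Agent.Q18.P (sym4K sum_sym4K logb_sym4K sum_norm_le cosh_lt cosh_mono)
open Pool.Agent.TH861.GL3 (PL qq two_le_qq)

variable {K : Type} [Field K] [NumberField K] {S : Finset (HeightOneSpectrum (𝓞 K))}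

/-- What is used of a nontrivial character `θ` of `𝕋_1(𝔫)`, `S` the set of primes dividing `𝔫`, `t v = θ(T_v)`,
`s v = θ(S_v)`: either `θ` comes from Hecke characters (Eisenstein and dihedral case), and `|t v| ≤ 2 √q`, or the fourth
symmetric power of the associated automorphic representation is cuspidal. -/
structure Character (S : Finset (HeightOneSpectrum (𝓞 K))) (t s : PL S → ℂ) : Prop where
  unit : ∀ v, ‖s v‖ = 1
  cases : (∀ v, ‖t v‖ ≤ 2 * Real.sqrt (qq v.1)) ∨
    ∃ α β : PL S → ℂ, (∀ v, t v = (Real.sqrt (qq v.1) : ℂ) * (α v + β v)) ∧ (∀ v, α v * β v = s v) ∧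
      ∃ (b : HeightOneSpectrum (𝓞 K) → Fin (5 ^ 2) → ℂ) (κ : Fin (5 ^ 2 * Module.finrank ℚ K) → ℂ),
        IsobaricRepK S 1 (sym4K α β) b κ

/-- `p_k(x, s)`: the power sum `a ^ k + b ^ k` as a polynomial in `x = a + b` and `s = a b` -/
def powerSum (x s : ℂ) : ℕ → ℂ
  | 0 => 2
  | 1 => x
  | k + 2 => x * powerSum x s (k + 1) - s * powerSum x s k

/-- the trace of the fourth symmetric power of `A_v ^ k` -/
noncomputable def trSym4 (t s : PL S → ℂ) (v : PL S) (k : ℕ) : ℂ :=
  powerSum (t v / (Real.sqrt (qq v.1) : ℂ)) (s v) k ^ 4 -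
    3 * s v ^ k * powerSum (t v / (Real.sqrt (qq v.1) : ℂ)) (s v) k ^ 2 + (s v ^ k) ^ 2

/-- the weight `1 / (k x^{k c} Γ(1 + k log x / T))` of the power `x ^ k` -/
noncomputable def weight (c T x : ℝ) (k : ℕ) : ℝ :=
  1 / ((k : ℝ) * x ^ ((k : ℝ) * c) * Real.Gamma (1 + (k : ℝ) * Real.log x / T))

/-- the mean `M_{c,N}(T)` -/
noncomputable def M (t s : PL S → ℂ) (c : ℝ) (N : ℕ) (T : ℝ) : ℝ :=
  (∑' v : PL S, ∑ k ∈ Finset.Icc 1 N, ‖trSym4 t s v k‖ ^ 2 * weight c T ((qq v.1 : ℕ) : ℝ) k) -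
    ∑' p : Nat.Primes, ∑ k ∈ Finset.Icc 1 N, weight c T ((p : ℕ) : ℝ) k

/-- `√q (q^ϑ + q^{-ϑ})` -/
noncomputable def bound (q ϑ : ℝ) : ℝ := Real.sqrt q * (q ^ ϑ + q ^ (-ϑ))

theorem powerSum_eq (a b : ℂ) (k : ℕ) : powerSum (a + b) (a * b) k = a ^ k + b ^ k := by
  induction k using Nat.strong_induction_on with
  | _ k ih =>
    match k with
    | 0 => simp [powerSum]; norm_num
    | 1 => simp [powerSum]
    | k + 2 =>
      rw [powerSum, ih (k + 1) (by omega), ih k (by omega)]
      ring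

theorem sqrt_pos (v : PL S) : 0 < Real.sqrt (qq v.1) := by
  have := two_le_qq v.1
  exact Real.sqrt_pos.2 (by exact_mod_cast (by omega : 0 < qq v.1))

theorem one_lt (v : PL S) : (1 : ℝ) < (qq v.1 : ℝ) := by
  have := two_le_qq v.1
  exact_mod_cast (by omega : 1 < qq v.1)

theorem bound_le {q x y : ℝ} (hq : 1 < q) (hx : 0 ≤ x) (hxy : x ≤ y) : bound q x ≤ bound q y := by
  have hq0 : 0 < q := by linarith
  unfold bound
  rw [Real.rpow_neg hq0.le, Real.rpow_neg hq0.le]
  exact mul_le_mul_of_nonneg_left (cosh_mono (Real.one_le_rpow hq.le hx)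
    (Real.rpow_le_rpow_of_exponent_le hq.le hxy)) (Real.sqrt_nonneg _)

theorem bound_lt {q x y : ℝ} (hq : 1 < q) (hx : 0 ≤ x) (hxy : x < y) : bound q x < bound q y := by
  have hq0 : 0 < q := by linarith
  unfold bound
  rw [Real.rpow_neg hq0.le, Real.rpow_neg hq0.le]
  exact mul_lt_mul_of_pos_left (cosh_lt (Real.one_le_rpow hq.le hx)
    (Real.rpow_lt_rpow_of_exponent_lt hq hxy)) (Real.sqrt_pos.2 hq0)

theorem bound_zero (q : ℝ) : bound q 0 = 2 * Real.sqrt q := by
  unfold bound
  simp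
  ring

/-- integral eigenvalues: the exact bound if the exponent is small compared with `1 / (√q log q)` -/
theorem exact {q : ℕ} (hq : 2 ≤ q) {z : ℝ} (hz0 : 0 ≤ z) (hz : z * Real.sqrt q * Real.log q ≤ 3) {a : ℤ}
    (ha : |(a : ℝ)| ≤ bound q (z / 8)) : |(a : ℝ)| ≤ 2 * Real.sqrt q := by
  have hq0 : (0 : ℝ) < q := by exact_mod_cast (by omega : 0 < q)
  have hq2 : (2 : ℝ) ≤ q := by exact_mod_cast hq
  have hL : 0 < Real.log q := Real.log_pos (by linarith)
  have hs0 : 0 < Real.sqrt q := Real.sqrt_pos.2 hq0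
  have hs2 : Real.sqrt q ^ 2 = q := Real.sq_sqrt hq0.le
  have hs14 : (1.4 : ℝ) ≤ Real.sqrt q := Real.le_sqrt_of_sq_le (by norm_num; linarith)
  set u : ℝ := z / 8 * Real.log q with hu
  have hu0 : 0 ≤ u := by positivity
  have hus : u * Real.sqrt q ≤ 3 / 8 := by
    rw [hu]
    nlinarith
  have hu1 : u ≤ 0.27 := by
    by_contra h
    push Not at h
    nlinarith
  have e1 : (q : ℝ) ^ (z / 8) = Real.exp u := by
    rw [Real.rpow_def_of_pos hq0, hu, mul_comm]
  have e2 : (q : ℝ) ^ (-(z / 8)) = Real.exp (-u) := by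
    rw [Real.rpow_def_of_pos hq0, hu]
    congr 1
    ring
  have hb : bound q (z / 8) = Real.sqrt q * (Real.exp u + Real.exp (-u)) := by
    unfold bound
    rw [e1, e2]
  have h1 : 1 - u ≤ Real.exp (-u) := by
    have := Real.add_one_le_exp (-u)
    linarith
  have h2 : Real.exp u ≤ 1 / (1 - u) := by
    rw [le_div_iff₀ (by linarith)]
    calc Real.exp u * (1 - u) ≤ Real.exp u * Real.exp (-u) := by gcongr
      _ = 1 := by rw [← Real.exp_add]; simp
  have h3 : Real.exp u - Real.exp (-u) ≤ 2.37 * u := by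
    have h4 : 1 / (1 - u) ≤ 1 + 1.37 * u := by
      rw [div_le_iff₀ (by linarith)]
      nlinarith
    linarith
  have h30 : 0 ≤ Real.exp u - Real.exp (-u) := by
    have := Real.exp_le_exp.2 (show -u ≤ u by linarith)
    linarith
  have h5 : Real.sqrt q * (Real.exp u - Real.exp (-u)) < 1 := by
    calc Real.sqrt q * (Real.exp u - Real.exp (-u)) ≤ Real.sqrt q * (2.37 * u) := by gcongr
      _ = 2.37 * (u * Real.sqrt q) := by ring
      _ ≤ 2.37 * (3 / 8) := by gcongr
      _ < 1 := by norm_num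
  have hmul : Real.exp u * Real.exp (-u) = 1 := by rw [← Real.exp_add]; simp
  have h6 : (a : ℝ) ^ 2 < 4 * q + 1 := by
    calc (a : ℝ) ^ 2 = |(a : ℝ)| ^ 2 := (sq_abs _).symm
      _ ≤ (Real.sqrt q * (Real.exp u + Real.exp (-u))) ^ 2 := by
          rw [← hb]
          gcongr
      _ = 4 * (Real.sqrt q ^ 2) * (Real.exp u * Real.exp (-u)) +
            (Real.sqrt q * (Real.exp u - Real.exp (-u))) ^ 2 := by ring
      _ = 4 * q + (Real.sqrt q * (Real.exp u - Real.exp (-u))) ^ 2 := by rw [hs2, hmul, mul_one]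
      _ < 4 * q + 1 := by
          have h7 : 0 ≤ Real.sqrt q * (Real.exp u - Real.exp (-u)) := by positivity
          nlinarith
  have h7 : a ^ 2 < 4 * (q : ℤ) + 1 := by exact_mod_cast h6
  have h8 : (a : ℝ) ^ 2 ≤ 4 * q := by
    have : a ^ 2 ≤ 4 * (q : ℤ) := by omega
    exact_mod_cast this
  have h9 : (a : ℝ) ^ 2 ≤ (2 * Real.sqrt q) ^ 2 := by
    rw [mul_pow, hs2]
    norm_num
    exact h8
  exact abs_le_of_sq_le_sq h9 (by positivity)

theorem part {t s : PL S → ℂ} (h : Character S t s) {c : ℝ} (hc0 : 0 ≤ c) (hc1 : c < 1) (N : ℕ) {y : ℝ} (hy : 0 ≤ y)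
    (hN : 1 ≤ ((N : ℝ) + 1) * (c + y))
    (hT : ∀ T₀ : ℝ, ∃ T : ℝ, T₀ ≤ T ∧ -Real.exp (Real.exp (y * T)) ≤ M t s c N T) (v : PL S) :
    ‖t v‖ ≤ bound (qq v.1) ((c + y) / 8) := by
  rcases h.cases with h1 | ⟨α, β, h1, h2, b, κ, h3⟩
  · refine (h1 v).trans ?_
    rw [← bound_zero]
    exact bound_le (one_lt v) le_rfl (by positivity)
  · have hx : ∀ v, t v / (Real.sqrt (qq v.1) : ℂ) = α v + β v := fun v => by
      rw [h1 v]
      have : (Real.sqrt (qq v.1) : ℂ) ≠ 0 := by exact_mod_cast (sqrt_pos v).ne'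
      field_simp
    have hl : ∀ v k, trSym4 t s v k = ∑ i, sym4K α β v i ^ k := fun v k => by
      have e1 : ∀ i, sym4K α β v i ^ k = sym4K (fun v => α v ^ k) (fun v => β v ^ k) v i := by
        intro i
        unfold sym4K
        rw [mul_pow, ← pow_mul, ← pow_mul, ← pow_mul, ← pow_mul, mul_comm k, mul_comm k]
      simp only [e1]
      rw [sum_sym4K]
      unfold trSym4
      rw [hx v, ← h2 v, powerSum_eq, mul_pow]
    have hM : ∀ T, Pool.Agent.Q222.RK.meanK (sym4K α β)
        (fun v k => (∑ j : Fin 1, (fun _ _ => 1 : Fin 1 → PL S → ℂ) j v ^ k).re) (∑ j : Fin 1, 1) c N T =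
          M t s c N T := by
      intro T
      unfold Pool.Agent.Q222.RK.meanK M
      congr 1
      · refine tsum_congr fun v => Finset.sum_congr rfl fun k _ => ?_
        rw [hl v k]
        simp only [one_pow, Finset.sum_const, Finset.card_univ, Fintype.card_fin, one_smul, Complex.one_re, one_mul]
        rfl
      · simp only [Finset.sum_const, Finset.card_univ, Fintype.card_fin, one_smul, Nat.cast_one, one_mul]
        rfl
    obtain ⟨k1, -, -, -⟩ := (Pool.Agent.Q222.RK.nf (S := S) h3 (ι := Fin 1) (χ := fun _ _ => 1) (e := fun _ => 1)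
      (j₀ := 0) (fun _ => rfl) (fun j => Or.inl ⟨fun _ => rfl, rfl⟩)
      (fun v k => ⟨1, zero_le_one, by simp⟩) hc0 hc1 (b := c + y) (by linarith) N hN).1 (fun y' hy' => by
        refine Filter.frequently_atTop.2 fun T₀ => ?_
        obtain ⟨T, h4, h5⟩ := hT (max T₀ 0)
        refine ⟨T, (le_max_left _ _).trans h4, ?_⟩
        rw [hM]
        have h6 : Pool.Agent.Q222.RK.ee y T ≤ Pool.Agent.Q222.RK.ee y' T :=
          Pool.Agent.Q222.RK.ee_mono ((le_max_right _ _).trans h4) (by linarith)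
        have h7 : -Pool.Agent.Q222.RK.ee y T ≤ M t s c N T := h5
        linarith)
    have hprod : ‖α v * β v‖ = 1 := by rw [h2 v]; exact h.unit v
    have hn : ‖t v‖ = Real.sqrt (qq v.1) * ‖α v + β v‖ := by
      rw [h1 v, norm_mul, Complex.norm_real, Real.norm_of_nonneg (Real.sqrt_nonneg _)]
    rw [hn]
    unfold bound
    refine mul_le_mul_of_nonneg_left (sum_norm_le (one_lt v) hprod ?_) (Real.sqrt_nonneg _)
    have := k1 v 0
    rw [logb_sym4K] at this
    linarith

/-- **Weight-two eigenvalues over any number field: exact bounds from means over prime powers.** -/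
theorem result {t s : PL S → ℂ} (h : Character S t s) :
    -- 1.: the lower bound for one `N`, on one sequence of `T`
    (∀ (c y : ℝ) (N : ℕ), 0 ≤ c → c < 1 → 0 ≤ y → 1 ≤ ((N : ℝ) + 1) * (c + y) →
      (∀ T₀ : ℝ, ∃ T : ℝ, T₀ ≤ T ∧ -Real.exp (Real.exp (y * T)) ≤ M t s c N T) →
      (∀ v, ‖t v‖ ≤ bound (qq v.1) ((c + y) / 8)) ∧
      ∀ (v : PL S) (a : ℤ), t v = a → (c + y) * Real.sqrt (qq v.1) * Real.log (qq v.1) ≤ 3 →
        ‖t v‖ ≤ 2 * Real.sqrt (qq v.1)) ∧
    -- 2.: one large eigenvalue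
    (∀ (c x y : ℝ) (N : ℕ) (v : PL S), 0 ≤ c → c < 1 → c < x → 1 < ((N : ℝ) + 1) * x → y < x - c →
      bound (qq v.1) (x / 8) ≤ ‖t v‖ →
      ∃ T₀ : ℝ, ∀ T : ℝ, T₀ ≤ T → M t s c N T < -Real.exp (Real.exp (y * T))) ∧
    -- 3.: infinitely many `N`
    ((∀ n : ℕ, ∃ N : ℕ, n ≤ N ∧ ∀ T₀ : ℝ, ∃ T : ℝ, T₀ ≤ T ∧
        -Real.exp (Real.exp (T / ((N : ℝ) + 1))) ≤ M t s 0 N T) →
      ∀ v, ‖t v‖ ≤ 2 * Real.sqrt (qq v.1)) := by
  refine ⟨fun c y N hc0 hc1 hy hN hT => ?_, fun c x y N v hc0 hc1 hcx hNx hyx hb => ?_, fun hN v => ?_⟩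
  · have key := part h hc0 hc1 N hy hN hT
    refine ⟨key, fun v a ha hz => ?_⟩
    have h1 := key v
    rw [ha, Complex.norm_intCast] at h1 ⊢
    exact exact (two_le_qq v.1) (by linarith) hz h1
  · have hN0 : (0 : ℝ) < (N : ℝ) + 1 := by positivity
    by_contra hcon
    push Not at hcon
    set y' : ℝ := max (max y 0) (1 / ((N : ℝ) + 1) - c) with hy'
    have h1 : y ≤ y' := (le_max_left _ _).trans (le_max_left _ _)
    have h2 : 0 ≤ y' := (le_max_right _ _).trans (le_max_left _ _)
    have h3 : 1 / ((N : ℝ) + 1) - c ≤ y' := le_max_right _ _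
    have h4 : y' < x - c := by
      refine max_lt (max_lt hyx (by linarith)) ?_
      have : 1 / ((N : ℝ) + 1) < x := by
        rw [div_lt_iff₀ hN0]
        linarith
      linarith
    have h5 : 1 ≤ ((N : ℝ) + 1) * (c + y') := by
      have : 1 / ((N : ℝ) + 1) ≤ c + y' := by linarith
      rw [div_le_iff₀ hN0] at this
      linarith
    have h6 := part h hc0 hc1 N h2 h5 (fun T₀ => by
      obtain ⟨T, h6, h7⟩ := hcon (max T₀ 0)
      refine ⟨T, (le_max_left _ _).trans h6, ?_⟩
      have h8 : Pool.Agent.Q222.RK.ee y T ≤ Pool.Agent.Q222.RK.ee y' T :=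
        Pool.Agent.Q222.RK.ee_mono ((le_max_right _ _).trans h6) h1
      have h9 : -Pool.Agent.Q222.RK.ee y T ≤ M t s c N T := h7
      have h10 : Real.exp (Real.exp (y' * T)) = Pool.Agent.Q222.RK.ee y' T := rfl
      rw [h10]
      linarith) v
    have h7 := bound_lt (one_lt v) (x := (c + y') / 8) (y := x / 8) (by positivity) (by linarith)
    linarith
  · -- let `N` tend to infinity
    have key : ∀ n : ℕ, ‖t v‖ ≤ bound (qq v.1) (1 / (8 * ((n : ℝ) + 1))) := by
      intro n
      obtain ⟨N, hnN, hT⟩ := hN n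
      have hN0 : (0 : ℝ) < (N : ℝ) + 1 := by positivity
      have h1 := part h le_rfl zero_lt_one N (y := 1 / ((N : ℝ) + 1)) (by positivity) (by
        rw [zero_add, mul_one_div_cancel hN0.ne']) (fun T₀ => by
          obtain ⟨T, h2, h3⟩ := hT T₀
          refine ⟨T, h2, ?_⟩
          rw [one_div_mul_eq_div]
          exact h3) v
      refine h1.trans (bound_le (one_lt v) (by positivity) ?_)
      rw [zero_add, div_div, mul_comm]
      have : (n : ℝ) ≤ N := by exact_mod_cast hnN
      gcongr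
    have hlim : Tendsto (fun n : ℕ => bound (qq v.1) (1 / (8 * ((n : ℝ) + 1)))) atTop
        (nhds (bound (qq v.1) 0)) := by
      have hq0 : (0 : ℝ) < (qq v.1 : ℝ) := by linarith [one_lt v]
      have hc : Continuous fun x : ℝ => bound (qq v.1) x := by
        unfold bound
        refine continuous_const.mul ?_
        exact (Real.continuous_const_rpow hq0.ne').add ((Real.continuous_const_rpow hq0.ne').comp continuous_neg)
      have h1 : Tendsto (fun n : ℕ => 1 / (8 * ((n : ℝ) + 1))) atTop (nhds 0) := by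
        have := (tendsto_one_div_add_atTop_nhds_zero_nat (𝕜 := ℝ)).const_mul (1 / 8)
        simp only [mul_zero] at this
        refine this.congr fun n => ?_
        field_simp
      exact (hc.tendsto 0).comp h1
    have := ge_of_tendsto' hlim key
    rwa [bound_zero] at this

end Pool.Agent.Results.MP_4819b8_nt.PrimePowerMeans
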